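import Pool.Agent.H47.SQ.Targets3

/-!
MP_c62aed_lc: one more variable is asked at the end
-/

set_option autoImplicit false

namespace Pool.Agent.H17.SR

open Finset Pool.Agent.H97.RK Pool.Agent.H41.SS Pool.Agent.H47.SR

theorem pf_XL1 (hXAS : T_XAS) (hXCN : T_XCN) : T_XL1 := by
  intro n k m F t t₁ d u u₁ x hu hG y A W J v hS hW hyx hpre hcard
  have hC : Cnt F x (insert v A) W (2 * t) (2 * t + 2 * (2 * t)) := by
    have h1 := (hXCN n k m F t t₁ d u u₁ x hu).1 hG (insert v A) W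
      (hpre.trans (subset_insert v A)) hW hcard
    have h2 : 2 * t + 2 * (2 * t) = 6 * t := by ring
    rw [h2]
    exact h1
  obtain ⟨y', W', J', h1, h2, h3, h4, h5, -⟩ :=
    hXAS n k m F (2 * t) (2 * t) le_rfl x y A W J v hS hS.lt hyx hC
  refine ⟨y', W', J', h1, ?_, h3, h4, h5⟩
  refine (card_le_card ?_).trans hW
  intro w hw
  rw [mem_inter] at hw ⊢
  exact ⟨h2 w (mem_insert_of_mem (hpre hw.2)) hw.1, hw.2⟩

end Pool.Agent.H17.SR
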